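import Pool.Agent.SZT.StmtsA

/-!
# SZT row TRF (translation between the interface and `Sol2`)
-/

set_option autoImplicit false

namespace Pool.Agent.SZT.H2

open Polynomial
open Pool.Agent.MNT (QU vC)

/-- degree and leading coefficient of `U` in the Pell equation -/
theorem deg_lead {E : Type} [Field E] (F A U W : E[X]) (M : ℕ) (hF : F.Monic)
    (hF5 : F.natDegree = 5) (hA : A.Monic) (hA2 : A.natDegree = 2)
    (h : U ^ 2 - F * W ^ 2 = A ^ M) : U.natDegree = M ∧ U.leadingCoeff ^ 2 = 1 := by
  have hU : U ^ 2 = A ^ M + F * W ^ 2 := by rw [← h]; ring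
  have hAM : (A ^ M).Monic := hA.pow M
  have hAd : (A ^ M).natDegree = 2 * M := by rw [hA.natDegree_pow, hA2]; ring
  have hUd : (U ^ 2).natDegree = 2 * U.natDegree := natDegree_pow U 2
  have hUl : (U ^ 2).leadingCoeff = U.leadingCoeff ^ 2 := leadingCoeff_pow U 2
  by_cases hW : W = 0
  · rw [hW] at hU
    have h1 : U ^ 2 = A ^ M := by rw [hU]; ring
    rw [h1] at hUd hUl
    refine ⟨by omega, ?_⟩
    rw [← hUl]
    exact hAM
  · have hFW : (F * W ^ 2).natDegree = 5 + 2 * W.natDegree := by
      rw [natDegree_mul hF.ne_zero (pow_ne_zero 2 hW), hF5, natDegree_pow]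
    have hlt : (F * W ^ 2).natDegree < (A ^ M).natDegree := by
      rcases lt_trichotomy (F * W ^ 2).natDegree (A ^ M).natDegree with h2 | h2 | h2
      · exact h2
      · omega
      · have h3 : (A ^ M + F * W ^ 2).natDegree = (F * W ^ 2).natDegree :=
          natDegree_add_eq_right_of_natDegree_lt h2
        rw [← hU, hUd] at h3
        omega
    have h3 : (A ^ M + F * W ^ 2).natDegree = (A ^ M).natDegree :=
      natDegree_add_eq_left_of_natDegree_lt hlt
    have h4 : (A ^ M + F * W ^ 2).leadingCoeff = (A ^ M).leadingCoeff :=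
      leadingCoeff_add_of_degree_lt' (degree_lt_degree hlt)
    rw [← hU] at h3 h4
    refine ⟨by omega, ?_⟩
    rw [← hUl, h4]
    exact hAM

/-- the resultant of a split monic quadratic polynomial with another polynomial -/
theorem resultant_two {E : Type} [Field E] (A G : E[X]) (x y : E) (hA : A.Monic) (hs : A.Splits)
    (hr : A.roots = {x, y}) : resultant A G = G.eval x * G.eval y := by
  rw [resultant_eq_prod_eval A G G.natDegree le_rfl hs, hA.leadingCoeff, one_pow, one_mul, hr]
  simp

/-- **Row TRF**. -/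
theorem trf : TrfStmt := by
  intro E _ v θ A U W M h2 hA hA2 hs hcop hM hev heq
  have hF : (∏ i, (X - C (θ i))).Monic :=
    monic_prod_of_monic _ _ fun i _ => monic_X_sub_C _
  have hF5 : (∏ i, (X - C (θ i))).natDegree = 5 := by
    rw [natDegree_prod_of_monic _ _ (fun i _ => monic_X_sub_C _)]
    simp
  obtain ⟨hd, hl⟩ := deg_lead _ A U W M hF hF5 hA hA2 heq
  have hcard : A.roots.card = 2 := by rw [← hs.natDegree_eq_card_roots, hA2]
  obtain ⟨x, y, hxy⟩ := Multiset.card_eq_two.1 hcard
  have hAxy : A = (X - C x) * (X - C y) := by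
    rw [hs.eq_prod_roots_of_monic hA, hxy]
    simp
  obtain ⟨N, hN⟩ := hev
  have hMN : M = 2 * N := by omega
  have hAx : A.eval x = 0 := by rw [hAxy]; simp
  have hAy : A.eval y = 0 := by rw [hAxy]; simp
  have hUroot : ∀ z, A.eval z = 0 → U.eval z ≠ 0 := by
    intro z hz hUz
    obtain ⟨p, q, hpq⟩ := hcop
    have := congrArg (eval z) hpq
    simp [hz, hUz] at this
  have hFroot : ∀ z, A.eval z = 0 → (∏ i, (X - C (θ i))).eval z ≠ 0 := by
    intro z hz hFz
    have h3 := congrArg (eval z) heq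
    simp only [eval_sub, eval_mul, hFz, eval_pow, hz, zero_pow hM.ne', zero_mul, sub_zero] at h3
    exact hUroot z hz (pow_eq_zero_iff (two_ne_zero) |>.1 h3)
  have hU0x := hUroot x hAx
  have hU0y := hUroot y hAy
  have hF0x := hFroot x hAx
  have hF0y := hFroot y hAy
  have hne : ∀ z, A.eval z = 0 → ∀ k, z ≠ θ k := by
    intro z hz k hk
    apply hFroot z hz
    rw [eval_prod]
    refine Finset.prod_eq_zero (Finset.mem_univ k) ?_
    simp [hk]
  refine ⟨![x, y], N, hMN, ⟨by omega, ?_, by rw [hd, hMN], hl, ?_⟩, ?_, ?_⟩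
  · rw [heq, hMN, hAxy]
    simp only [Matrix.cons_val_zero, Matrix.cons_val_one]
    rw [← pow_mul, mul_comm 2 N]
  · intro i
    fin_cases i
    · exact hU0x
    · exact hU0y
  · intro j k
    fin_cases j
    · exact hne x hAx k
    · exact hne y hAy k
  · have hr1 : resultant A (4 * ∏ i, (X - C (θ i)))
        = (2 : E) ^ 4 * ((∏ i, (X - C (θ i))).eval x * (∏ i, (X - C (θ i))).eval y) := by
      rw [resultant_two A _ x y hA hs hxy]
      have h4 : (4 : E[X]) = C 4 := (map_ofNat C 4).symm
      rw [h4, eval_mul, eval_mul, eval_C, eval_C]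
      ring
    have hr2 : resultant A (2 * U) = (2 : E) ^ 2 * (U.eval x * U.eval y) := by
      rw [resultant_two A _ x y hA hs hxy]
      have h4 : (2 : E[X]) = C 2 := (map_ofNat C 2).symm
      rw [h4, eval_mul, eval_mul, eval_C, eval_C]
      ring
    unfold Lv
    rw [hr1, hr2]
    have hv : ∀ z : E, z ≠ 0 → v z ≠ 0 := fun z hz => v.ne_zero hz
    rw [map_mul, map_mul, map_pow, map_mul, map_mul, map_pow]
    rw [Real.log_mul (pow_ne_zero 4 (hv _ h2)) (mul_ne_zero (hv _ hF0x) (hv _ hF0y)),
      Real.log_mul (hv _ hF0x) (hv _ hF0y),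
      Real.log_mul (pow_ne_zero 2 (hv _ h2)) (mul_ne_zero (hv _ hU0x) (hv _ hU0y)),
      Real.log_mul (hv _ hU0x) (hv _ hU0y), Real.log_pow, Real.log_pow, Fin.sum_univ_two]
    simp only [Matrix.cons_val_zero, Matrix.cons_val_one]
    have hN0 : (N : ℝ) ≠ 0 := by
      have : 0 < N := by omega
      exact_mod_cast this.ne'
    rw [hMN]
    push_cast
    field_simp
    ring

end Pool.Agent.SZT.H2
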